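import Mathlib

namespace Pool.Agent.Results.MP_8f6c4c_co.All

open Finset SimpleGraph Classical

/-- The number of shortest `s`-`t` paths. -/
noncomputable def sig {V : Type} (G : SimpleGraph V) (s t : V) : ℕ :=
  {p : G.Walk s t | p.IsPath ∧ p.length = G.dist s t}.ncard

/-- The number of shortest `s`-`t` paths through `v`. -/
noncomputable def sigv {V : Type} (G : SimpleGraph V) (s t v : V) : ℕ :=
  {p : G.Walk s t | p.IsPath ∧ p.length = G.dist s t ∧ v ∈ p.support}.ncard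

/-- Betweenness of `v`: half the sum over ordered pairs, i.e. the sum over unordered pairs. -/
noncomputable def B {V : Type} [Fintype V] (G : SimpleGraph V) (v : V) : ℚ :=
  (∑ s, ∑ t, if s ≠ t ∧ s ≠ v ∧ t ≠ v then (sigv G s t v : ℚ) / sig G s t else 0) / 2

section
variable {V : Type} {G : SimpleGraph V} {s t v : V}

theorem adj0 (h : G.Adj s t) (h1 : s ≠ v) (h2 : t ≠ v) : sigv G s t v = 0 := by
  rw [sigv, dist_eq_one_iff_adj.2 h, Set.eq_empty_of_forall_notMem (s := {p | _ ∧ _}),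
    Set.ncard_empty]
  rintro p ⟨-, a, b⟩
  cases p with
  | nil => simp at a
  | cons _ p => cases p with
    | nil => simp [h1.symm, h2.symm] at b
    | cons _ _ => simp at a

theorem two (ne : s ≠ t) (h : ¬G.Adj s t) {x : V} (x1 : G.Adj s x) (x2 : G.Adj x t)
    (P : List V → Prop) : {w | (G.Adj s w ∧ G.Adj w t) ∧ P [s, w, t]}.ncard =
      {p : G.Walk s t | p.IsPath ∧ p.length = G.dist s t ∧ P p.support}.ncard := by
  have d : G.dist s t = 2 := by
    have a := dist_le (Walk.cons x1 (Walk.cons x2 Walk.nil))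
    have b := (Walk.cons x1 (Walk.cons x2 Walk.nil)).reachable.pos_dist_of_ne ne
    have c : G.dist s t ≠ 1 := fun e => h (dist_eq_one_iff_adj.1 e)
    simp only [Walk.length_cons, Walk.length_nil] at a
    omega
  rw [d]
  refine Set.ncard_congr (fun w hw => Walk.cons hw.1.1 (Walk.cons hw.1.2 Walk.nil))
    (fun w hw => ⟨?_, rfl, hw.2⟩) (fun a b _ _ e => ?_) ?_
  · simp [Walk.isPath_def, ne, hw.1.1.ne, hw.1.2.ne]
  · simpa using congrArg Walk.support e
  · rintro p ⟨-, a, b⟩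
    cases p with
    | nil => simp at a
    | cons h1 p => cases p with
      | nil => simp at a
      | cons h2 p => cases p with
        | nil => exact ⟨_, ⟨⟨h1, h2⟩, b⟩, rfl⟩
        | cons _ _ => simp at a

end

variable {C : Type} [Fintype C] (a b : C → ℕ)

abbrev W := Σ c : C, Fin (a c) ⊕ Fin (b c)

def Gr : SimpleGraph (W a b) where
  Adj x y := x ≠ y ∧ (x.1 = y.1 → x.2.isLeft = y.2.isLeft)
  symm := ⟨fun _ _ h => ⟨h.1.symm, fun e => (h.2 e.symm).symm⟩⟩
  loopless := ⟨fun _ h => h.1 rfl⟩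

omit [Fintype C] in
theorem adj_of {x y : W a b} (h : x.1 ≠ y.1) : (Gr a b).Adj x y :=
  ⟨fun e => h (e ▸ rfl), fun e => absurd e h⟩

theorem term (o : ∀ c, ∃ x : W a b, x.1 ≠ c) (s t v : W a b) {D} :
    @ite ℚ (s ≠ t ∧ s ≠ v ∧ t ≠ v) D ((sigv (Gr a b) s t v : ℚ) / sig (Gr a b) s t) 0 =
      if s.1 ≠ v.1 ∧ s.1 = t.1 ∧ s.2.isLeft ≠ t.2.isLeft then
        1 / (#{w : W a b | w.1 ≠ s.1} : ℚ) else 0 := by
  by_cases h : s.1 = t.1 ∧ s.2.isLeft ≠ t.2.isLeft
  · have ne : s ≠ t := fun e => h.2 (e ▸ rfl)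
    have na : ¬(Gr a b).Adj s t := fun e => h.2 (e.2 h.1)
    obtain ⟨x, hx⟩ := o s.1
    have cm : ∀ w, (Gr a b).Adj s w ∧ (Gr a b).Adj w t ↔ w.1 ≠ s.1 := fun w =>
      ⟨fun e f => h.2 ((e.1.2 f.symm).trans (e.2.2 (f.trans h.1))),
        fun e => ⟨adj_of a b e.symm, adj_of a b (h.1 ▸ e)⟩⟩
    have T := two ne na ((cm x).2 hx).1 ((cm x).2 hx).2
    have e1 : sig (Gr a b) s t = #{w : W a b | w.1 ≠ s.1} := by
      have := T fun _ => True
      simp only [cm, and_true] at this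
      rw [sig, ← this, ← Set.ncard_coe_finset]
      simp
    have e2 := T fun l => v ∈ l
    simp only [cm] at e2
    rw [sigv, ← e2, e1]
    by_cases u : s.1 = v.1
    · rw [if_neg (c := s.1 ≠ v.1 ∧ _) fun e => e.1 u]
      split_ifs with k
      · rw [Set.eq_empty_of_forall_notMem (s := {w | _ ∧ _}), Set.ncard_empty]
        · simp
        · rintro w ⟨w1, w2⟩
          simp only [List.mem_cons, k.2.1.symm, k.2.2.symm, List.not_mem_nil, false_or,
            or_false] at w2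
          exact w1 (w2 ▸ u.symm)
      · rfl
    · have s1 : s ≠ v := fun e => u (e ▸ rfl)
      have t1 : t ≠ v := fun e => u (e ▸ h.1)
      rw [if_pos ⟨ne, s1, t1⟩, if_pos ⟨u, h⟩]
      have : {w : W a b | w.1 ≠ s.1 ∧ v ∈ [s, w, t]} = {v} := by
        ext w
        simp only [List.mem_cons, s1.symm, t1.symm, List.not_mem_nil, false_or, or_false,
          Set.mem_ofPred_eq, Set.mem_singleton_iff]
        exact ⟨fun e => e.2.symm, fun e => ⟨e ▸ Ne.symm u, e.symm⟩⟩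
      rw [this, Set.ncard_singleton, Nat.cast_one]
  · rw [if_neg (c := s.1 ≠ v.1 ∧ _) fun e => h e.2]
    split_ifs with k
    · rw [adj0 (G := Gr a b) ⟨k.1, fun e => by_contra fun f => h ⟨e, f⟩⟩ k.2.1 k.2.2]
      simp
    · rfl

theorem gen (o : ∀ c, ∃ x : W a b, x.1 ≠ c) (l : ℚ)
    (h : ∀ c, (a c * b c : ℚ) / (∑ d, (a d + b d : ℚ) - (a c + b c)) = l) (v : W a b) :
    B (Gr a b) v = (Fintype.card C - 1) * l := by
  have cd : ∀ c, (#{w : W a b | w.1 ≠ c} : ℚ) = ∑ d, (a d + b d : ℚ) - (a c + b c) := fun c => by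
    rw [card_filter, Fintype.sum_sigma, ← sum_erase_eq_sub (mem_univ c), ← filter_ne',
      sum_filter]
    push_cast
    refine sum_congr rfl fun d _ => ?_
    split_ifs <;> simp
  have inn : ∀ c, (∑ x : Fin (a c) ⊕ Fin (b c), ∑ t : W a b, if c ≠ v.1 ∧ c = t.1 ∧
      x.isLeft ≠ t.2.isLeft then 1 / (∑ d, (a d + b d : ℚ) - (a c + b c)) else 0) =
        if c ≠ v.1 then 2 * l else 0 := fun c => by
    by_cases u : c = v.1
    · simp [u]
    · have : ∀ x : Fin (a c) ⊕ Fin (b c), (∑ t : W a b, if c ≠ v.1 ∧ c = t.1 ∧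
          x.isLeft ≠ t.2.isLeft then 1 / (∑ d, (a d + b d : ℚ) - (a c + b c)) else 0) =
          ∑ y : Fin (a c) ⊕ Fin (b c), if x.isLeft ≠ y.isLeft then
            1 / (∑ d, (a d + b d : ℚ) - (a c + b c)) else 0 := fun x => by
        rw [Fintype.sum_sigma, sum_eq_single c (fun d _ e => by simp [e.symm]) (by simp)]
        simp [u]
      rw [sum_congr rfl fun x _ => this x, if_pos u, ← h c]
      simp [Fintype.sum_sum_type]
      ring
  simp only [B, term a b o, cd]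
  rw [Fintype.sum_sigma, sum_congr rfl fun c _ => inn c, ← sum_filter, filter_ne', sum_const,
    card_erase_of_mem (mem_univ _), card_univ, nsmul_eq_mul,
    Nat.cast_pred (Fintype.card_pos_iff.2 ⟨v.1⟩)]
  ring

omit [Fintype C] in
theorem conn (o : ∀ c, ∃ x : W a b, x.1 ≠ c) (c : C) : (Gr a b).Connected := by
  have : Nonempty (W a b) := ⟨(o c).choose⟩
  refine ⟨fun x y => ?_⟩
  by_cases e : x.1 = y.1
  · obtain ⟨z, hz⟩ := o x.1
    exact (adj_of a b hz.symm).reachable.trans (adj_of a b (e ▸ hz)).reachable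
  · exact (adj_of a b e).reachable

theorem result (q : ℚ) (hq : 1 < q) :
    ∃ (V : Type) (_ : Fintype V) (G : SimpleGraph V), G.Connected ∧ ∀ v, B G v = q := by
  obtain ⟨d, e, hd, rfl⟩ : ∃ d e : ℕ, 0 < d ∧ q = (d + e) / d := by
    have h1 : (q.den : ℤ) ≤ q.num := by
      have := Rat.num_div_den q
      rw [← this, one_lt_div (by exact_mod_cast q.pos)] at hq
      exact_mod_cast hq.le
    obtain ⟨e, he⟩ := Int.le.dest h1
    refine ⟨q.den, e, q.pos, ?_⟩
    rw [← Rat.num_div_den q]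
    simp only [Rat.num_div_den]
    rw [eq_div_iff (by exact_mod_cast q.den_nz), Rat.mul_den_eq_num, ← he]
    push_cast
    rfl
  obtain ⟨u, hu⟩ : ∃ u, u = 2 * (d + e) + 1 := ⟨_, rfl⟩
  obtain ⟨r, hr⟩ : ∃ r, r = d * u := ⟨_, rfl⟩
  have r3 : u ≤ r := hr ▸ Nat.le_mul_of_pos_left u hd
  obtain ⟨j, hj⟩ : ∃ j, j + 1 + 2 * (d + e) * u = r ^ 2 :=
    ⟨r ^ 2 - 1 - 2 * (d + e) * u, by
      have : 1 + 2 * (d + e) * u ≤ r ^ 2 := by nlinarith
      omega⟩
  obtain ⟨s, hs⟩ : ∃ s, s + 1 = r ^ 2 := ⟨r ^ 2 - 1, by omega⟩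
  let a : Fin (j + 1) ⊕ Fin (e * d * u ^ 2 + 1) → ℕ := Sum.elim (fun _ => 1) fun _ => r
  let b : Fin (j + 1) ⊕ Fin (e * d * u ^ 2 + 1) → ℕ := Sum.elim (fun _ => s) fun _ => r
  have o : ∀ c, ∃ x : W a b, x.1 ≠ c := by
    rintro (c | c)
    · exact ⟨⟨Sum.inr 0, Sum.inl ⟨0, show 0 < r by omega⟩⟩, by simp⟩
    · exact ⟨⟨Sum.inl 0, Sum.inl ⟨0, show 0 < 1 by omega⟩⟩, by simp⟩
  have R : (3 : ℚ) ≤ r := by exact_mod_cast (by omega)
  have D : (0 : ℚ) < d := by exact_mod_cast hd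
  have j' : (j : ℚ) = r ^ 2 - 1 - 2 * (d + e) * u := by
    have : (j : ℚ) + 1 + 2 * (d + e) * u = r ^ 2 := by exact_mod_cast hj
    linarith
  have s' : (s : ℚ) = r ^ 2 - 1 := by
    have : (s : ℚ) + 1 = r ^ 2 := by exact_mod_cast hs
    linarith
  have r' : (r : ℚ) = d * u := by exact_mod_cast hr
  have N : ∑ c, (a c + b c : ℚ) = r ^ 4 - 2 * r ^ 3 + 2 * r := by
    simp only [a, b, Fintype.sum_sum_type, Sum.elim_inl, Sum.elim_inr, sum_const, card_univ,
      Fintype.card_fin, nsmul_eq_mul]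
    push_cast
    rw [j', s', r']
    ring
  have p1 : (r : ℚ) - 2 ≠ 0 := by linarith
  have p2 : (r : ℚ) ≠ 0 := by linarith
  have p3 : (r : ℚ) ^ 2 - 1 ≠ 0 := by nlinarith
  refine ⟨W a b, inferInstance, Gr a b, conn a b o (Sum.inl 0), fun v => ?_⟩
  rw [gen a b o (1 / (r * (r - 2))) (fun c => ?_) v]
  · simp only [Fintype.card_sum, Fintype.card_fin]
    push_cast
    rw [j', mul_one_div, div_eq_div_iff (mul_ne_zero p2 p1) D.ne', r']
    ring
  · rw [N]
    rcases c with c | c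
    · simp only [a, b, Sum.elim_inl, s', Nat.cast_one]
      rw [show (r : ℚ) ^ 4 - 2 * r ^ 3 + 2 * r - (1 + (r ^ 2 - 1)) = r * (r - 2) * (r ^ 2 - 1) by ring]
      field_simp
    · simp only [a, b, Sum.elim_inr]
      rw [show (r : ℚ) ^ 4 - 2 * r ^ 3 + 2 * r - (r + r) = r * (r - 2) * (r * r) by ring]
      field_simp

end Pool.Agent.Results.MP_8f6c4c_co.All
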